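import Pool.Agent.Run7.h968.TN.Defs

/-!
# Piece hall: Hall's marriage theorem and the Schroeder-Bernstein theorem
-/

set_option autoImplicit false

namespace Pool.Agent.Run7.h267.TN

open Pool.Agent.Run7.h968.TN

theorem t_hall : P_hall := by
  intro G _ h hbad
  classical
  let t : G ⊕ G → Finset G := Sum.elim (fun x => {x, h 0 * x, h 1 * x}) (fun x => {x, h 2 * x, h 3 * x})
  have hHall : ∀ s : Finset (G ⊕ G), s.card ≤ (s.biUnion t).card := by
    intro s
    by_contra hcon
    apply hbad
    refine ⟨s.toLeft, s.toRight, s.biUnion t, ?_, ?_, ?_⟩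
    · rw [Finset.card_toLeft_add_card_toRight]
      exact not_le.1 hcon
    · intro a ha
      rw [Finset.mem_toLeft] at ha
      refine ⟨?_, ?_, ?_⟩ <;> refine Finset.mem_biUnion.2 ⟨_, ha, ?_⟩ <;> simp [t]
    · intro a ha
      rw [Finset.mem_toRight] at ha
      refine ⟨?_, ?_, ?_⟩ <;> refine Finset.mem_biUnion.2 ⟨_, ha, ?_⟩ <;> simp [t]
  obtain ⟨f, hf, hft⟩ := (Finset.all_card_le_biUnion_card_iff_exists_injective t).1 hHall
  obtain ⟨φ, hφ, hφt⟩ := Function.Embedding.schroeder_bernstein_of_rel hf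
    (Sum.inl_injective : Function.Injective (Sum.inl : G → G ⊕ G)) (fun z y => y ∈ t z) hft
    (fun y => by simp [t])
  let s : Fin 6 → G := ![1, h 0, h 1, 1, h 2, h 3]
  let base : G ⊕ G → G := Sum.elim id id
  let S : Finset (Fin 6) := {0, 1, 2}
  have hidx : ∀ z, ∃ i : Fin 6, (i ∈ S ↔ z.isLeft = true) ∧ φ z = s i * base z := by
    intro z
    have h1 := hφt z
    rcases z with x | x
    · simp only [t, Sum.elim_inl, Finset.mem_insert, Finset.mem_singleton] at h1
      rcases h1 with h1 | h1 | h1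
      · exact ⟨0, by simp [S], by rw [h1]; simp [s, base]⟩
      · exact ⟨1, by simp [S], by rw [h1]; simp [s, base]⟩
      · exact ⟨2, by simp [S], by rw [h1]; simp [s, base]⟩
    · simp only [t, Sum.elim_inr, Finset.mem_insert, Finset.mem_singleton] at h1
      rcases h1 with h1 | h1 | h1
      · exact ⟨3, by simp [S], by rw [h1]; simp [s, base]⟩
      · exact ⟨4, by simp [S], by rw [h1]; simp [s, base]⟩
      · exact ⟨5, by simp [S], by rw [h1]; simp [s, base]⟩
  choose idx hS hidx using hidx
  let e := Equiv.ofBijective φ hφ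
  have he : ∀ z, e.symm (φ z) = z := fun z => e.symm_apply_apply z
  have he' : ∀ y, φ (e.symm y) = y := fun y => e.apply_symm_apply y
  refine ⟨6, fun i => {y | idx (e.symm y) = i}, fun i => (s i)⁻¹, S, le_rfl, ?_, ?_, ?_⟩
  · intro x
    exact ⟨idx (e.symm x), rfl, fun i hi => hi.symm⟩
  · intro x
    refine ⟨idx (Sum.inl x), ⟨(hS _).2 rfl, ?_⟩, ?_⟩
    · change idx (e.symm ((s (idx (Sum.inl x)))⁻¹⁻¹ * x)) = idx (Sum.inl x)
      rw [inv_inv]
      have h1 : s (idx (Sum.inl x)) * x = φ (Sum.inl x) := (hidx (Sum.inl x)).symm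
      rw [h1, he]
    · rintro i ⟨hi, hx⟩
      change idx (e.symm ((s i)⁻¹⁻¹ * x)) = i at hx
      rw [inv_inv] at hx
      set z := e.symm (s i * x) with hz
      have h1 : z.isLeft = true := (hS z).1 (by rw [hx]; exact hi)
      have h2 : φ z = s i * x := he' _
      have h3 := hidx z
      rw [h2, hx] at h3
      have h4 : x = base z := mul_left_cancel h3
      rcases z with x' | x'
      · have h5 : x = x' := h4
        rw [h5]
        exact hx.symm
      · exact absurd h1 (by simp)
  · intro x
    refine ⟨idx (Sum.inr x), ⟨fun hc => absurd ((hS _).1 hc) (by simp), ?_⟩, ?_⟩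
    · change idx (e.symm ((s (idx (Sum.inr x)))⁻¹⁻¹ * x)) = idx (Sum.inr x)
      rw [inv_inv]
      have h1 : s (idx (Sum.inr x)) * x = φ (Sum.inr x) := (hidx (Sum.inr x)).symm
      rw [h1, he]
    · rintro i ⟨hi, hx⟩
      change idx (e.symm ((s i)⁻¹⁻¹ * x)) = i at hx
      rw [inv_inv] at hx
      set z := e.symm (s i * x) with hz
      have h1 : ¬ z.isLeft = true := fun hc => hi (by rw [← hx]; exact (hS z).2 hc)
      have h2 : φ z = s i * x := he' _
      have h3 := hidx z
      rw [h2, hx] at h3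
      have h4 : x = base z := mul_left_cancel h3
      rcases z with x' | x'
      · exact absurd rfl h1
      · have h5 : x = x' := h4
        rw [h5]
        exact hx.symm

end Pool.Agent.Run7.h267.TN
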